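import Mathlib
import Pool.Agent.V11177.Quiddity

namespace Pool.Agent.Results.MP_762e7e_co.FinitelyManyIrred

open Pool.Agent.V11177.Quiddity Matrix

variable {N : ℕ}

/-- a solution of size at least `N² + 3` is reducible (two rows of partial products coincide) -/
theorem reducible_of_long [NeZero N] (c : List (ZMod N)) (hc : IsSol c)
    (hlen : N ^ 2 + 3 ≤ c.length) : Reducible c := by
  let f : Fin (N ^ 2 + 1) → ZMod N × ZMod N := fun i => (M (c.take i) 0 0, M (c.take i) 0 1)
  have hcard : Fintype.card (ZMod N × ZMod N) < Fintype.card (Fin (N ^ 2 + 1)) := by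
    simp only [Fintype.card_prod, ZMod.card, Fintype.card_fin]
    nlinarith
  obtain ⟨i, j, hij, hf⟩ := Fintype.exists_ne_map_eq_of_card_lt f hcard
  wlog hlt : i < j generalizing i j
  · exact this j i hij.symm hf.symm (lt_of_le_of_ne (not_lt.1 hlt) hij.symm)
  have hlt' : (i : ℕ) < j := hlt
  have hj : (j : ℕ) ≤ N ^ 2 := by omega
  set x := c.take i with hx
  set be := (c.take j).drop i with hbe
  set y := c.drop j with hy
  have h1 : x ++ be = c.take j := by
    have h2 : x = (c.take j).take i := by rw [List.take_take, min_eq_left hlt'.le]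
    rw [h2, hbe, List.take_append_drop]
  have hc2 : x ++ be ++ y = c := by rw [h1, hy, List.take_append_drop]
  have hlx : x.length = i := by rw [hx, List.length_take]; omega
  have hlbe : be.length = j - i := by rw [hbe, List.length_drop, List.length_take]; omega
  have hly : y.length = c.length - j := by rw [hy, List.length_drop]
  rw [← hc2] at hc ⊢
  apply reducible_of_block hc
  · intro h
    rw [h] at hlbe
    simp at hlbe
    omega
  · rw [List.length_append]
    omega
  · left
    simp only [f, Prod.mk.injEq] at hf
    obtain ⟨f1, f2⟩ := hf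
    rw [← hx, ← h1, M_append] at f1 f2
    simp only [Matrix.mul_apply, Fin.sum_univ_two] at f1 f2
    have hdet := det_M x
    rw [Matrix.det_fin_two] at hdet
    linear_combination (M be 0 0 - 1) * (- hdet) + (M x 1 1) * (- f1) - (M x 1 0) * (-f2)

/-- **Main theorem.** For every `N ≥ 2` every irreducible solution of `(E_N)` has size at most
`N² + 2`; in particular there are only finitely many irreducible solutions. -/
theorem result (N : ℕ) (hN : 2 ≤ N) :
    (∀ c : List (ZMod N), Irred c → c.length ≤ N ^ 2 + 2) ∧
      {c : List (ZMod N) | Irred c}.Finite := by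
  have : NeZero N := ⟨by omega⟩
  have h : ∀ c : List (ZMod N), Irred c → c.length ≤ N ^ 2 + 2 := by
    rintro c ⟨h1, _, h3⟩
    by_contra hcon
    exact h3 (reducible_of_long c h1 (by omega))
  refine ⟨h, ?_⟩
  apply (List.finite_length_le (ZMod N) (N ^ 2 + 2)).subset
  intro c hc
  exact h c hc

end Pool.Agent.Results.MP_762e7e_co.FinitelyManyIrred
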